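import Pool.Agent.helper35.MR.SpecA

/-! # Project mr, module R3: two directions -/

set_option autoImplicit false

open Finset

namespace Pool.Agent.helper35.MR

open Pool.Agent.RRank

theorem R3_third : ∀ a b : Fin 3, a ≠ b →
    ∃ c : Fin 3, c ≠ a ∧ c ≠ b ∧ ∀ d, d = a ∨ d = b ∨ d = c := by decide

section
variable {K : Type} [Field K] {Q : Fin 3 → Type}

theorem R3_mk {S : Finset (Fin 3)} {α : Fin 3} (hα : α ∈ S) {f g : ((α : Fin 3) → Q α) → K}
    (hf : ∀ x y, x α = y α → f x = f y) (hg : ∀ x y, (∀ β, β ≠ α → x β = y β) → g x = g y) :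
    RankLEOne (slicesOf S) (fun x => f x * g x) := by
  classical
  have h2 : (({α} : Finset (Fin 3))ᶜ).Nonempty := by
    fin_cases α <;> decide
  have h1 : ({α} : Finset (Fin 3)).Nonempty := singleton_nonempty α
  refine rankLEOne_iff.2 ⟨pairPartition {α} h1 h2,
    ⟨pairPartition_mem {α} h1 h2, α, hα, ?_⟩,
    fun J x => if J = {α} then f x else g x, ?_, ?_⟩
  · show ({α} : Finset (Fin 3)) ∈ ({{α}, {α}ᶜ} : Finset (Finset (Fin 3)))
    exact mem_insert_self _ _
  · intro J hJ x y hxy
    have hJ' : J = {α} ∨ J = {α}ᶜ := by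
      have : J ∈ ({{α}, {α}ᶜ} : Finset (Finset (Fin 3))) := hJ
      simpa using this
    dsimp only
    rcases hJ' with rfl | rfl
    · rw [if_pos rfl, if_pos rfl]
      exact hf x y (hxy α (by simp))
    · rw [if_neg (ne_compl_of_nonempty h1).symm, if_neg (ne_compl_of_nonempty h1).symm]
      exact hg x y fun β hβ => hxy β (by simpa using hβ)
  · intro x
    show f x * g x = ∏ J ∈ ({{α}, {α}ᶜ} : Finset (Finset (Fin 3))), if J = {α} then f x else g x
    rw [Finset.prod_pair (ne_compl_of_nonempty h1), if_pos rfl,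
      if_neg (ne_compl_of_nonempty h1).symm]

theorem R3_of {S : Finset (Fin 3)} {t : ((α : Fin 3) → Q α) → K}
    (h : RankLEOne (slicesOf S) t) :
    ∃ α ∈ S, ∃ f g : ((α : Fin 3) → Q α) → K, (∀ x y, x α = y α → f x = f y) ∧
      (∀ x y, (∀ β, β ≠ α → x β = y β) → g x = g y) ∧ ∀ x, t x = f x * g x := by
  classical
  obtain ⟨P, ⟨_, α, hα, hmem⟩, b, hb, ht⟩ := rankLEOne_iff.1 h
  refine ⟨α, hα, b {α}, fun x => ∏ J ∈ P.parts.erase {α}, b J x, ?_, ?_, ?_⟩
  · intro x y hxy
    refine hb {α} hmem fun β hβ => ?_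
    have : β = α := by simpa using hβ
    subst this
    exact hxy
  · intro x y hxy
    refine Finset.prod_congr rfl fun J hJ => hb J (mem_of_mem_erase hJ) fun β hβ => ?_
    refine hxy β ?_
    rintro rfl
    exact (Finset.disjoint_left.1 (P.disjoint (mem_of_mem_erase hJ) hmem
      (ne_of_mem_erase hJ))) hβ (mem_singleton_self _)
  · intro x
    rw [ht, ← Finset.mul_prod_erase _ _ hmem]

/-- splitting a sum over `Fin r` in two parts -/
theorem R3_split {r : ℕ} (p : Fin r → Prop) [DecidablePred p] :
    ∃ (N₁ N₂ : ℕ) (e₁ : Fin N₁ → Fin r) (e₂ : Fin N₂ → Fin r), N₁ + N₂ = r ∧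
      (∀ n, p (e₁ n)) ∧ (∀ n, ¬ p (e₂ n)) ∧
      ∀ F : Fin r → K, ∑ n, F n = ∑ n, F (e₁ n) + ∑ n, F (e₂ n) := by
  classical
  refine ⟨(univ.filter p).card, (univ.filter fun n => ¬ p n).card,
    fun n => (univ.filter p).equivFin.symm n, fun n => (univ.filter fun n => ¬ p n).equivFin.symm n,
    ?_, ?_, ?_, ?_⟩
  · rw [Finset.card_filter_add_card_filter_not, card_univ, Fintype.card_fin]
  · intro n
    exact (mem_filter.mp ((univ.filter p).equivFin.symm n).2).2
  · intro n
    exact (mem_filter.mp ((univ.filter fun n => ¬ p n).equivFin.symm n).2).2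
  · intro F
    rw [Equiv.sum_comp (univ.filter p).equivFin.symm (fun n => F n),
      Equiv.sum_comp (univ.filter fun n => ¬ p n).equivFin.symm (fun n => F n),
      Finset.sum_coe_sort (univ.filter p) F, Finset.sum_coe_sort (univ.filter fun n => ¬ p n) F,
      Finset.sum_filter_add_sum_filter_not]

end

theorem R3 (hA : R3A_stmt) (hB : R3B_stmt) : R3_stmt := by
  classical
  intro α₀ α₁ h01 K _ Q _ T l hT
  obtain ⟨α₂, h20, h21, hall⟩ := R3_third α₀ α₁ h01
  -- a base point
  have hne : Nonempty ((α : Fin 3) → Q α) := by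
    by_contra hem
    refine not_sumOf_of_le_rank hT (r := 0) (by omega) ?_
    exact ⟨fun i => i.elim0, fun i => i.elim0, fun x => (hem ⟨x⟩).elim⟩
  obtain ⟨x₀⟩ := hne
  set mk : Q α₀ → Q α₁ → Q α₂ → ((α : Fin 3) → Q α) := fun x y z =>
    Function.update (Function.update (Function.update x₀ α₀ x) α₁ y) α₂ z with hmk
  have hmk0 : ∀ x y z, mk x y z α₀ = x := by
    intro x y z
    simp [hmk, Function.update_of_ne h20.symm, Function.update_of_ne h01]
  have hmk1 : ∀ x y z, mk x y z α₁ = y := by
    intro x y z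
    simp [hmk, Function.update_of_ne h21.symm]
  have hmk2 : ∀ x y z, mk x y z α₂ = z := by
    intro x y z
    simp [hmk]
  have hmkp : ∀ p : (α : Fin 3) → Q α, mk (p α₀) (p α₁) (p α₂) = p := by
    intro p
    funext α
    rcases hall α with rfl | rfl | rfl
    · exact hmk0 _ _ _
    · exact hmk1 _ _ _
    · exact hmk2 _ _ _
  have : Fintype (Q α₂) := Fintype.ofFinite _
  by_cases hdet : ∀ (i : Fin l → Q α₀) (j : Fin l → Q α₁),
      ((pencil fun x y z => T (mk x y z)).submatrix i j).det = 0
  · exfalso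
    obtain ⟨N₁, N₂, a, b, a', b', hN, hdec⟩ := hA K (Q α₀) (Q α₁) (Q α₂)
      (fun x y z => T (mk x y z)) l hdet
    refine not_sumOf_of_le_rank hT (r := N₁ + N₂) (by omega) ?_
    have h1 : SumOf (slicesOf {α₀, α₁})
        (fun p : (α : Fin 3) → Q α => ∑ n, a n (p α₀) * b n (p α₁) (p α₂)) N₁ := by
      refine ⟨fun n p => a n (p α₀) * b n (p α₁) (p α₂), fun n => ?_, fun x => rfl⟩
      refine R3_mk (α := α₀) (by simp) (f := fun p => a n (p α₀))
        (g := fun p => b n (p α₁) (p α₂)) ?_ ?_
      · intro x y hxy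
        show a n (x α₀) = a n (y α₀)
        rw [hxy]
      · intro x y hxy
        show b n (x α₁) (x α₂) = b n (y α₁) (y α₂)
        rw [hxy α₁ h01.symm, hxy α₂ h20]
    have h2 : SumOf (slicesOf {α₀, α₁})
        (fun p : (α : Fin 3) → Q α => ∑ n, a' n (p α₁) * b' n (p α₀) (p α₂)) N₂ := by
      refine ⟨fun n p => a' n (p α₁) * b' n (p α₀) (p α₂), fun n => ?_, fun x => rfl⟩
      refine R3_mk (α := α₁) (by simp) (f := fun p => a' n (p α₁))
        (g := fun p => b' n (p α₀) (p α₂)) ?_ ?_
      · intro x y hxy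
        show a' n (x α₁) = a' n (y α₁)
        rw [hxy]
      · intro x y hxy
        show b' n (x α₀) (x α₂) = b' n (y α₀) (y α₂)
        rw [hxy α₀ h01, hxy α₂ h21]
    have h3 := h1.add h2
    have e : T = fun p : (α : Fin 3) → Q α => (∑ n, a n (p α₀) * b n (p α₁) (p α₂)) +
        ∑ n, a' n (p α₁) * b' n (p α₀) (p α₂) := by
      funext p
      have := hdec (p α₀) (p α₁) (p α₂)
      rw [hmkp p] at this
      exact this
    rw [e]
    exact h3
  · push Not at hdet
    obtain ⟨i, j, hij⟩ := hdet
    obtain ⟨Z', hZ', hlow⟩ := hB K (Q α₀) (Q α₁) (Q α₂) (fun x y z => T (mk x y z)) l i j hij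
    set X : (α : Fin 3) → Finset (Q α) :=
      Function.update (Function.update (Function.update (fun _ => ∅) α₀ (univ.image i)) α₁
        (univ.image j)) α₂ Z' with hX
    have hX0 : X α₀ = univ.image i := by
      simp [hX, Function.update_of_ne h20.symm, Function.update_of_ne h01]
    have hX1 : X α₁ = univ.image j := by
      simp [hX, Function.update_of_ne h21.symm]
    have hX2 : X α₂ = Z' := by
      simp [hX]
    refine ⟨X, ?_, ?_⟩
    · intro α
      rcases hall α with rfl | rfl | rfl
      · rw [hX0]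
        exact card_image_le.trans (by simp)
      · rw [hX1]
        exact card_image_le.trans (by simp)
      · rw [hX2]
        exact hZ'
    · by_contra hlt
      push Not at hlt
      obtain ⟨r, hr, t, ht, hsum⟩ := exists_sumOf_of_rank_lt hlt
      have hl : 0 < l := by omega
      -- base point of the minor
      have hi : ∀ s, i s ∈ X α₀ := fun s => by rw [hX0]; exact mem_image_of_mem _ (mem_univ s)
      have hj : ∀ s, j s ∈ X α₁ := fun s => by rw [hX1]; exact mem_image_of_mem _ (mem_univ s)
      have hz : ∀ z ∈ Z', z ∈ X α₂ := fun z hz => by rw [hX2]; exact hz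
      have hZne : Z'.Nonempty := by
        by_contra hem
        rw [not_nonempty_iff_eq_empty] at hem
        have := hlow 0 0 (fun n => n.elim0) (fun n => n.elim0) (fun n => n.elim0)
          (fun n => n.elim0) (by intro s t z hz; rw [hem] at hz; simp at hz)
        omega
      obtain ⟨z₀, hz₀⟩ := hZne
      have hbase : ∀ α, ∃ q, q ∈ X α := by
        intro α
        rcases hall α with rfl | rfl | rfl
        · exact ⟨_, hi ⟨0, hl⟩⟩
        · exact ⟨_, hj ⟨0, hl⟩⟩
        · exact ⟨_, hz z₀ hz₀⟩
      choose q hq using hbase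
      set q₀ : (α : Fin 3) → X α := fun α => ⟨q α, hq α⟩ with hq₀
      choose τ hτS f g hf hg hfg using fun n => R3_of (ht n)
      obtain ⟨N₁, N₂, e₁, e₂, hN, he₁, he₂, hsp⟩ := R3_split (K := K) (fun n => τ n = α₀)
      have he₂' : ∀ n, τ (e₂ n) = α₁ := by
        intro n
        have h1 := hτS (e₂ n)
        rw [mem_insert, mem_singleton] at h1
        exact h1.resolve_left (he₂ n)
      -- functions on the sets `Q α`
      let u0 : Q α₀ → ((α : Fin 3) → X α) := fun x =>
        if h : x ∈ X α₀ then Function.update q₀ α₀ ⟨x, h⟩ else q₀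
      let u1 : Q α₁ → ((α : Fin 3) → X α) → ((α : Fin 3) → X α) := fun y p =>
        if h : y ∈ X α₁ then Function.update p α₁ ⟨y, h⟩ else p
      let u2 : Q α₂ → ((α : Fin 3) → X α) → ((α : Fin 3) → X α) := fun z p =>
        if h : z ∈ X α₂ then Function.update p α₂ ⟨z, h⟩ else p
      have key := hlow N₁ N₂ (fun n x => f (e₁ n) (u0 x)) (fun n y z => g (e₁ n) (u2 z (u1 y q₀)))
        (fun n y => f (e₂ n) (u1 y q₀)) (fun n x z => g (e₂ n) (u2 z (u0 x))) ?_
      · omega
      · intro s t' z hz'
        have hP0 : (u2 z (u1 (j t') (u0 (i s)))) =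
            Function.update (Function.update (Function.update q₀ α₀ ⟨i s, hi s⟩) α₁ ⟨j t', hj t'⟩)
              α₂ ⟨z, hz z hz'⟩ := by
          simp only [u0, u1, u2, dif_pos (hi s), dif_pos (hj t'), dif_pos (hz z hz')]
        set P : (α : Fin 3) → X α := u2 z (u1 (j t') (u0 (i s))) with hP
        have hPα0 : P α₀ = ⟨i s, hi s⟩ := by
          rw [hP0]
          simp [Function.update_of_ne h20.symm, Function.update_of_ne h01]
        have hPα1 : P α₁ = ⟨j t', hj t'⟩ := by
          rw [hP0]
          simp [Function.update_of_ne h21.symm]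
        have hPα2 : P α₂ = ⟨z, hz z hz'⟩ := by
          rw [hP0]
          simp
        have hval : T (mk (i s) (j t') z) = minor T X P := by
          unfold minor
          congr 1
          funext α
          rcases hall α with rfl | rfl | rfl
          · rw [hmk0, hPα0]
          · rw [hmk1, hPα1]
          · rw [hmk2, hPα2]
        have hu0 : ∀ β, β = α₀ → u0 (i s) β = P β := by
          rintro β rfl
          rw [hPα0]
          simp [u0, hi s]
        have hu1 : ∀ β, β = α₁ → u1 (j t') q₀ β = P β := by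
          rintro β rfl
          rw [hPα1]
          simp [u1, hj t']
        have hu12 : ∀ β, β ≠ α₀ → u2 z (u1 (j t') q₀) β = P β := by
          intro β hβ
          rcases hall β with rfl | rfl | rfl
          · exact absurd rfl hβ
          · rw [hPα1]
            simp [u1, u2, hj t', hz z hz', Function.update_of_ne h21.symm]
          · rw [hPα2]
            simp [u1, u2, hj t', hz z hz']
        have hu02 : ∀ β, β ≠ α₁ → u2 z (u0 (i s)) β = P β := by
          intro β hβ
          rcases hall β with rfl | rfl | rfl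
          · rw [hPα0]
            simp [u0, u2, hi s, hz z hz', Function.update_of_ne h20.symm]
          · exact absurd rfl hβ
          · rw [hPα2]
            simp [u0, u2, hi s, hz z hz']
        show T (mk (i s) (j t') z) = _
        rw [hval, hsum P, hsp]
        congr 1
        · refine Finset.sum_congr rfl fun n _ => ?_
          rw [hfg (e₁ n) P]
          congr 1
          · exact hf (e₁ n) _ _ (hu0 _ (he₁ n)).symm
          · exact hg (e₁ n) _ _ fun β hβ => (hu12 β (by rw [he₁ n] at hβ; exact hβ)).symm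
        · refine Finset.sum_congr rfl fun n _ => ?_
          rw [hfg (e₂ n) P]
          congr 1
          · exact hf (e₂ n) _ _ (hu1 _ (he₂' n)).symm
          · exact hg (e₂ n) _ _ fun β hβ => (hu02 β (by rw [he₂' n] at hβ; exact hβ)).symm

end Pool.Agent.helper35.MR
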