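import Pool.Agent.helper35.MR.SpecA

/-! # Project mr, module SYM: symmetries of full minors -/

set_option autoImplicit false

open Finset

namespace Pool.Agent.helper35.MR

open Pool.Agent.RRank

theorem SYM_ev12 {ι K : Type} [Fintype ι] [Field K] (M : ι → ι → ι → K) (u v w : ι → K) :
    ev3 (fun i j k => M j i k) u v w = ev3 M v u w := by
  unfold ev3
  rw [Finset.sum_comm]
  refine Finset.sum_congr rfl fun j _ => Finset.sum_congr rfl fun i _ =>
    Finset.sum_congr rfl fun k _ => ?_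
  ring

theorem SYM_ev23 {ι K : Type} [Fintype ι] [Field K] (M : ι → ι → ι → K) (u v w : ι → K) :
    ev3 (fun i j k => M i k j) u v w = ev3 M u w v := by
  unfold ev3
  refine Finset.sum_congr rfl fun i _ => ?_
  rw [Finset.sum_comm]
  refine Finset.sum_congr rfl fun j _ => Finset.sum_congr rfl fun k _ => ?_
  ring

theorem SYM_full12 {ι K : Type} [Fintype ι] [Field K] (M : ι → ι → ι → K) (h : Full3 M) :
    Full3 (fun i j k => M j i k) := by
  intro U V W hd
  obtain ⟨v, hv, u, hu, w, hw, hne⟩ := h V U W (by omega)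
  exact ⟨u, hu, v, hv, w, hw, by rwa [SYM_ev12]⟩

theorem SYM_full23 {ι K : Type} [Fintype ι] [Field K] (M : ι → ι → ι → K) (h : Full3 M) :
    Full3 (fun i j k => M i k j) := by
  intro U V W hd
  obtain ⟨u, hu, w, hw, v, hv, hne⟩ := h U W V (by omega)
  exact ⟨u, hu, v, hv, w, hw, by rwa [SYM_ev23]⟩

theorem SYM : SYM_stmt := by
  intro K _ V l
  refine ⟨?_, ?_, ?_⟩
  · rintro ⟨x, y, z, h⟩
    exact ⟨y, x, z, SYM_full12 _ h⟩
  · rintro ⟨x, y, z, h⟩
    exact ⟨x, z, y, SYM_full23 _ h⟩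
  · rintro ⟨x, y, z, h⟩
    exact ⟨fun i => -x i, fun i => -y i, fun i => -z i, h⟩

end Pool.Agent.helper35.MR
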